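import Pool.Agent.Helper20.HP.Dinc

/-!
# HOPF project, piece BR1: the Riemannian metric of a product of spheres
-/

set_option autoImplicit false

open Filter Metric Module Set
open scoped Topology ContDiff RealInnerProductSpace Manifold

set_option maxSynthPendingDepth 3

namespace Pool.Agent.Helper28.HP
open Pool.Agent.Helper20.PC Pool.Agent.Helper20.HP

section
variable {E₁ E₂ : Type} [NormedAddCommGroup E₁] [InnerProductSpace ℝ E₁] [FiniteDimensional ℝ E₁]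
  [NormedAddCommGroup E₂] [InnerProductSpace ℝ E₂] [FiniteDimensional ℝ E₂]
  {k l : ℕ} [Fact (finrank ℝ E₁ = k + 1)] [Fact (finrank ℝ E₂ = l + 1)]

namespace BR

/-- the inclusion -/
def inc (q : sphere (0 : E₁) 1 × sphere (0 : E₂) 1) : E₁ × E₂ := ((q.1 : E₁), (q.2 : E₂))

lemma contMDiff_inc : ContMDiff ((𝓡 k).prod (𝓡 l)) 𝓘(ℝ, E₁ × E₂) ω
    (fun q : sphere (0 : E₁) 1 × sphere (0 : E₂) 1 => ((q.1 : E₁), (q.2 : E₂))) := by
  have h1 : ContMDiff ((𝓡 k).prod (𝓡 l)) 𝓘(ℝ, E₁) ω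
      (fun q : sphere (0 : E₁) 1 × sphere (0 : E₂) 1 => (q.1 : E₁)) :=
    contMDiff_coe_sphere.comp contMDiff_fst
  have h2 : ContMDiff ((𝓡 k).prod (𝓡 l)) 𝓘(ℝ, E₂) ω
      (fun q : sphere (0 : E₁) 1 × sphere (0 : E₂) 1 => (q.2 : E₂)) :=
    contMDiff_coe_sphere.comp contMDiff_snd
  exact h1.prodMk_space h2

lemma dinc_fst (p : sphere (0 : E₁) 1 × sphere (0 : E₂) 1)
    (u : TangentSpace ((𝓡 k).prod (𝓡 l)) p) :
    (dinc (k := k) (l := l) p u).1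
      = mfderiv (𝓡 k) 𝓘(ℝ, E₁) ((↑) : sphere (0 : E₁) 1 → E₁) p.1 u.1 := by
  have h0 : MDifferentiableAt ((𝓡 k).prod (𝓡 l)) 𝓘(ℝ, E₁ × E₂)
      (fun q : sphere (0 : E₁) 1 × sphere (0 : E₂) 1 => ((q.1 : E₁), (q.2 : E₂))) p :=
    (contMDiff_inc (k := k) (l := l)).mdifferentiableAt (by simp)
  have h1 : HasMFDerivAt ((𝓡 k).prod (𝓡 l)) 𝓘(ℝ, E₁)
      (fun q : sphere (0 : E₁) 1 × sphere (0 : E₂) 1 => (q.1 : E₁)) p
      ((ContinuousLinearMap.fst ℝ E₁ E₂).comp (dinc (k := k) (l := l) p)) := by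
    have h2 := (ContinuousLinearMap.fst ℝ E₁ E₂).hasMFDerivAt
      (x := ((p.1 : E₁), (p.2 : E₂)))
    exact HasMFDerivAt.comp (g := Prod.fst)
      (f := fun q : sphere (0 : E₁) 1 × sphere (0 : E₂) 1 => ((q.1 : E₁), (q.2 : E₂)))
      p h2 h0.hasMFDerivAt
  have h3 : HasMFDerivAt ((𝓡 k).prod (𝓡 l)) 𝓘(ℝ, E₁)
      (fun q : sphere (0 : E₁) 1 × sphere (0 : E₂) 1 => (q.1 : E₁)) p
      ((mfderiv (𝓡 k) 𝓘(ℝ, E₁) ((↑) : sphere (0 : E₁) 1 → E₁) p.1).comp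
        (ContinuousLinearMap.fst ℝ (TangentSpace (𝓡 k) p.1) (TangentSpace (𝓡 l) p.2))) := by
    have h4 : HasMFDerivAt (𝓡 k) 𝓘(ℝ, E₁) ((↑) : sphere (0 : E₁) 1 → E₁) p.1
        (mfderiv (𝓡 k) 𝓘(ℝ, E₁) ((↑) : sphere (0 : E₁) 1 → E₁) p.1) :=
      ((contMDiff_coe_sphere (m := ω)).mdifferentiableAt (by simp)).hasMFDerivAt
    exact HasMFDerivAt.comp (g := ((↑) : sphere (0 : E₁) 1 → E₁))
      (f := (Prod.fst : sphere (0 : E₁) 1 × sphere (0 : E₂) 1 → sphere (0 : E₁) 1))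
      p h4 (hasMFDerivAt_fst p)
  have h5 := hasMFDerivAt_unique h1 h3
  have h6 := congrArg (fun L => L u) h5
  exact h6

lemma dinc_snd (p : sphere (0 : E₁) 1 × sphere (0 : E₂) 1)
    (u : TangentSpace ((𝓡 k).prod (𝓡 l)) p) :
    (dinc (k := k) (l := l) p u).2
      = mfderiv (𝓡 l) 𝓘(ℝ, E₂) ((↑) : sphere (0 : E₂) 1 → E₂) p.2 u.2 := by
  have h0 : MDifferentiableAt ((𝓡 k).prod (𝓡 l)) 𝓘(ℝ, E₁ × E₂)
      (fun q : sphere (0 : E₁) 1 × sphere (0 : E₂) 1 => ((q.1 : E₁), (q.2 : E₂))) p :=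
    (contMDiff_inc (k := k) (l := l)).mdifferentiableAt (by simp)
  have h1 : HasMFDerivAt ((𝓡 k).prod (𝓡 l)) 𝓘(ℝ, E₂)
      (fun q : sphere (0 : E₁) 1 × sphere (0 : E₂) 1 => (q.2 : E₂)) p
      ((ContinuousLinearMap.snd ℝ E₁ E₂).comp (dinc (k := k) (l := l) p)) := by
    have h2 := (ContinuousLinearMap.snd ℝ E₁ E₂).hasMFDerivAt
      (x := ((p.1 : E₁), (p.2 : E₂)))
    exact HasMFDerivAt.comp (g := Prod.snd)
      (f := fun q : sphere (0 : E₁) 1 × sphere (0 : E₂) 1 => ((q.1 : E₁), (q.2 : E₂)))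
      p h2 h0.hasMFDerivAt
  have h3 : HasMFDerivAt ((𝓡 k).prod (𝓡 l)) 𝓘(ℝ, E₂)
      (fun q : sphere (0 : E₁) 1 × sphere (0 : E₂) 1 => (q.2 : E₂)) p
      ((mfderiv (𝓡 l) 𝓘(ℝ, E₂) ((↑) : sphere (0 : E₂) 1 → E₂) p.2).comp
        (ContinuousLinearMap.snd ℝ (TangentSpace (𝓡 k) p.1) (TangentSpace (𝓡 l) p.2))) := by
    have h4 : HasMFDerivAt (𝓡 l) 𝓘(ℝ, E₂) ((↑) : sphere (0 : E₂) 1 → E₂) p.2
        (mfderiv (𝓡 l) 𝓘(ℝ, E₂) ((↑) : sphere (0 : E₂) 1 → E₂) p.2) :=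
      ((contMDiff_coe_sphere (m := ω)).mdifferentiableAt (by simp)).hasMFDerivAt
    exact HasMFDerivAt.comp (g := ((↑) : sphere (0 : E₂) 1 → E₂))
      (f := (Prod.snd : sphere (0 : E₁) 1 × sphere (0 : E₂) 1 → sphere (0 : E₂) 1))
      p h4 (hasMFDerivAt_snd p)
  have h5 := hasMFDerivAt_unique h1 h3
  have h6 := congrArg (fun L => L u) h5
  exact h6

lemma inner_mfderiv_coe {E : Type} [NormedAddCommGroup E] [InnerProductSpace ℝ E] {n : ℕ}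
    [Fact (finrank ℝ E = n + 1)] (x : sphere (0 : E) 1) (u : TangentSpace (𝓡 n) x) :
    ⟪(x : E), (mfderiv (𝓡 n) 𝓘(ℝ, E) ((↑) : sphere (0 : E) 1 → E) x u : E)⟫ = 0 := by
  have h1 := range_mfderiv_coe_sphere (n := n) x
  have h2 : (mfderiv (𝓡 n) 𝓘(ℝ, E) ((↑) : sphere (0 : E) 1 → E) x u : E) ∈ (ℝ ∙ (x : E))ᗮ := by
    rw [← h1]
    exact ⟨u, rfl⟩
  exact Submodule.mem_orthogonal_singleton_iff_inner_right.mp h2

end BR

open BR

/-- BR0 : `dinc p` is injective with tangential image -/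
theorem dinc_prop (p : sphere (0 : E₁) 1 × sphere (0 : E₂) 1) :
    Function.Injective (dinc (k := k) (l := l) p) ∧
    ∀ u, ⟪(p.1 : E₁), (dinc (k := k) (l := l) p u).1⟫ = 0 ∧
      ⟪(p.2 : E₂), (dinc (k := k) (l := l) p u).2⟫ = 0 := by
  constructor
  · intro u v huv
    have h1 : (dinc (k := k) (l := l) p u).1 = (dinc (k := k) (l := l) p v).1 := by rw [huv]
    have h2 : (dinc (k := k) (l := l) p u).2 = (dinc (k := k) (l := l) p v).2 := by rw [huv]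
    rw [dinc_fst, dinc_fst] at h1
    rw [dinc_snd, dinc_snd] at h2
    exact Prod.ext (mfderiv_coe_sphere_injective p.1 h1) (mfderiv_coe_sphere_injective p.2 h2)
  · intro u
    rw [dinc_fst, dinc_snd]
    exact ⟨inner_mfderiv_coe p.1 u.1, inner_mfderiv_coe p.2 u.2⟩

namespace BR

/-- a positive definite form on a finite dimensional space is bounded below -/
lemma exists_lower {F : Type*} [NormedAddCommGroup F] [NormedSpace ℝ F] [FiniteDimensional ℝ F]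
    (B : F →L[ℝ] F →L[ℝ] ℝ) (hB : ∀ v, v ≠ 0 → 0 < B v v) :
    ∃ c : ℝ, 0 < c ∧ ∀ v, c * ‖v‖ ^ 2 ≤ B v v := by
  rcases subsingleton_or_nontrivial F with h | h
  · refine ⟨1, one_pos, fun v => ?_⟩
    rw [Subsingleton.elim v 0]
    simp
  · haveI : ProperSpace F := FiniteDimensional.proper ℝ F
    have hc : Continuous fun v : F => B v v := (B.continuous).clm_apply continuous_id
    obtain ⟨v₀, hv₀, hmin⟩ := (isCompact_sphere (0 : F) 1).exists_isMinOn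
      (NormedSpace.sphere_nonempty.mpr zero_le_one) hc.continuousOn
    have hn0 : ‖v₀‖ = 1 := mem_sphere_zero_iff_norm.mp hv₀
    refine ⟨B v₀ v₀, hB v₀ (by intro h; rw [h, norm_zero] at hn0; norm_num at hn0), fun v => ?_⟩
    rcases eq_or_ne v 0 with rfl | hv
    · simp
    · have hvn : ‖v‖ ≠ 0 := norm_ne_zero_iff.mpr hv
      have h1 : ‖v‖⁻¹ • v ∈ sphere (0 : F) 1 := by
        rw [mem_sphere_zero_iff_norm, norm_smul, norm_inv, norm_norm, inv_mul_cancel₀ hvn]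
      have h2 : B v₀ v₀ ≤ B (‖v‖⁻¹ • v) (‖v‖⁻¹ • v) := hmin h1
      have h3 : B (‖v‖⁻¹ • v) (‖v‖⁻¹ • v) = (‖v‖⁻¹) ^ 2 * B v v := by
        rw [map_smul, map_smul, _root_.smul_apply, smul_eq_mul, smul_eq_mul]
        ring
      rw [h3] at h2
      have h4 : B v v = ‖v‖ ^ 2 * ((‖v‖⁻¹) ^ 2 * B v v) := by field_simp
      rw [h4, mul_comm (B v₀ v₀)]
      exact mul_le_mul_of_nonneg_left h2 (by positivity)

/-- the bilinear form on a tangent space -/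
noncomputable def inn (g : sphere (0 : E₁) 1 × sphere (0 : E₂) 1 → (E₁ × E₂) →L[ℝ] (E₁ × E₂) →L[ℝ] ℝ)
    (p : sphere (0 : E₁) 1 × sphere (0 : E₂) 1) :
    TangentSpace ((𝓡 k).prod (𝓡 l)) p →L[ℝ] TangentSpace ((𝓡 k).prod (𝓡 l)) p →L[ℝ] ℝ :=
  (ContinuousLinearMap.precomp ℝ (dinc (k := k) (l := l) p)).comp
    ((g p).comp (dinc (k := k) (l := l) p))

lemma inn_apply (g : sphere (0 : E₁) 1 × sphere (0 : E₂) 1 → (E₁ × E₂) →L[ℝ] (E₁ × E₂) →L[ℝ] ℝ)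
    (p : sphere (0 : E₁) 1 × sphere (0 : E₂) 1) (u v : TangentSpace ((𝓡 k).prod (𝓡 l)) p) :
    inn g p u v = g p (dinc p u) (dinc p v) := rfl

lemma contMDiff_inn
    (g : sphere (0 : E₁) 1 × sphere (0 : E₂) 1 → (E₁ × E₂) →L[ℝ] (E₁ × E₂) →L[ℝ] ℝ)
    (h1 : ContMDiff ((𝓡 k).prod (𝓡 l)) 𝓘(ℝ, (E₁ × E₂) →L[ℝ] (E₁ × E₂) →L[ℝ] ℝ) ∞ g) :
    ContMDiff ((𝓡 k).prod (𝓡 l)) (((𝓡 k).prod (𝓡 l)).prod
      𝓘(ℝ, (EuclideanSpace ℝ (Fin k) × EuclideanSpace ℝ (Fin l)) →L[ℝ]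
        (EuclideanSpace ℝ (Fin k) × EuclideanSpace ℝ (Fin l)) →L[ℝ] ℝ)) ∞
      (fun b : sphere (0 : E₁) 1 × sphere (0 : E₂) 1 =>
        (Bundle.TotalSpace.mk' ((EuclideanSpace ℝ (Fin k) × EuclideanSpace ℝ (Fin l)) →L[ℝ]
          (EuclideanSpace ℝ (Fin k) × EuclideanSpace ℝ (Fin l)) →L[ℝ] ℝ) b (inn g b) :
          Bundle.TotalSpace ((EuclideanSpace ℝ (Fin k) × EuclideanSpace ℝ (Fin l)) →L[ℝ]
          (EuclideanSpace ℝ (Fin k) × EuclideanSpace ℝ (Fin l)) →L[ℝ] ℝ)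
          (fun b : sphere (0 : E₁) 1 × sphere (0 : E₂) 1 =>
            TangentSpace ((𝓡 k).prod (𝓡 l)) b →L[ℝ] TangentSpace ((𝓡 k).prod (𝓡 l)) b →L[ℝ] ℝ))) := by
  intro x₀
  rw [Bundle.contMDiffAt_section]
  have hD : ContMDiffAt ((𝓡 k).prod (𝓡 l)) 𝓘(ℝ, (EuclideanSpace ℝ (Fin k) × EuclideanSpace ℝ (Fin l))
      →L[ℝ] (E₁ × E₂)) ∞ (inTangentCoordinates ((𝓡 k).prod (𝓡 l)) 𝓘(ℝ, E₁ × E₂) id
        (fun q : sphere (0 : E₁) 1 × sphere (0 : E₂) 1 => ((q.1 : E₁), (q.2 : E₂)))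
        (mfderiv ((𝓡 k).prod (𝓡 l)) 𝓘(ℝ, E₁ × E₂)
          (fun q : sphere (0 : E₁) 1 × sphere (0 : E₂) 1 => ((q.1 : E₁), (q.2 : E₂)))) x₀) x₀ :=
    ((contMDiff_inc (k := k) (l := l)) x₀).mfderiv_const (by simp)
  set D := inTangentCoordinates ((𝓡 k).prod (𝓡 l)) 𝓘(ℝ, E₁ × E₂) id
        (fun q : sphere (0 : E₁) 1 × sphere (0 : E₂) 1 => ((q.1 : E₁), (q.2 : E₂)))
        (mfderiv ((𝓡 k).prod (𝓡 l)) 𝓘(ℝ, E₁ × E₂)
          (fun q : sphere (0 : E₁) 1 × sphere (0 : E₂) 1 => ((q.1 : E₁), (q.2 : E₂)))) x₀ with hDdef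
  have hp : ContMDiffAt ((𝓡 k).prod (𝓡 l))
      𝓘(ℝ, ((E₁ × E₂) →L[ℝ] ℝ) →L[ℝ]
        ((EuclideanSpace ℝ (Fin k) × EuclideanSpace ℝ (Fin l)) →L[ℝ] ℝ)) ∞
      (fun x => ((ContinuousLinearMap.compL ℝ
        (EuclideanSpace ℝ (Fin k) × EuclideanSpace ℝ (Fin l)) (E₁ × E₂) ℝ).flip (D x))) x₀ :=
    ((ContinuousLinearMap.compL ℝ
        (EuclideanSpace ℝ (Fin k) × EuclideanSpace ℝ (Fin l)) (E₁ × E₂) ℝ).flip.contMDiff).contMDiffAt.comp
      x₀ hD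
  have hG := hp.clm_comp ((h1 x₀).clm_comp hD)
  refine hG.congr_of_eventuallyEq ?_
  have hx : x₀ ∈ (trivializationAt (EuclideanSpace ℝ (Fin k) × EuclideanSpace ℝ (Fin l))
      (TangentSpace ((𝓡 k).prod (𝓡 l)) : sphere (0 : E₁) 1 × sphere (0 : E₂) 1 → Type) x₀).baseSet :=
    FiberBundle.mem_baseSet_trivializationAt' x₀
  filter_upwards [(trivializationAt (EuclideanSpace ℝ (Fin k) × EuclideanSpace ℝ (Fin l))
      (TangentSpace ((𝓡 k).prod (𝓡 l)) : sphere (0 : E₁) 1 × sphere (0 : E₂) 1 → Type) x₀).open_baseSet.mem_nhds hx]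
    with x hxb
  refine ContinuousLinearMap.ext fun v => ContinuousLinearMap.ext fun w => ?_
  have hDx : ∀ v : EuclideanSpace ℝ (Fin k) × EuclideanSpace ℝ (Fin l), D x v
      = dinc (k := k) (l := l) x ((trivializationAt
        (EuclideanSpace ℝ (Fin k) × EuclideanSpace ℝ (Fin l))
        (TangentSpace ((𝓡 k).prod (𝓡 l)) : sphere (0 : E₁) 1 × sphere (0 : E₂) 1 → Type) x₀).symmL
          ℝ x v) := by
    intro v
    simp only [hDdef, inTangentCoordinates, ContinuousLinearMap.inCoordinates,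
      ContinuousLinearMap.comp_apply, id_eq]
    simp [dinc]
    rfl
  have hL : ((trivializationAt
      ((EuclideanSpace ℝ (Fin k) × EuclideanSpace ℝ (Fin l)) →L[ℝ]
        (EuclideanSpace ℝ (Fin k) × EuclideanSpace ℝ (Fin l)) →L[ℝ] ℝ)
      (fun b : sphere (0 : E₁) 1 × sphere (0 : E₂) 1 =>
        TangentSpace ((𝓡 k).prod (𝓡 l)) b →L[ℝ] TangentSpace ((𝓡 k).prod (𝓡 l)) b →L[ℝ] ℝ) x₀
        ⟨x, inn g x⟩).2 v) w = inn g x ((trivializationAt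
        (EuclideanSpace ℝ (Fin k) × EuclideanSpace ℝ (Fin l))
        (TangentSpace ((𝓡 k).prod (𝓡 l)) : sphere (0 : E₁) 1 × sphere (0 : E₂) 1 → Type) x₀).symmL
          ℝ x v) ((trivializationAt
        (EuclideanSpace ℝ (Fin k) × EuclideanSpace ℝ (Fin l))
        (TangentSpace ((𝓡 k).prod (𝓡 l)) : sphere (0 : E₁) 1 × sphere (0 : E₂) 1 → Type) x₀).symmL
          ℝ x w) := by
    rw [hom_trivializationAt_apply]
    simp only [ContinuousLinearMap.inCoordinates, ContinuousLinearMap.comp_apply]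
    have hb : x ∈ (trivializationAt
        ((EuclideanSpace ℝ (Fin k) × EuclideanSpace ℝ (Fin l)) →L[ℝ] ℝ)
        (fun b : sphere (0 : E₁) 1 × sphere (0 : E₂) 1 =>
          TangentSpace ((𝓡 k).prod (𝓡 l)) b →L[ℝ] ℝ) x₀).baseSet := by
      rw [hom_trivializationAt_baseSet]
      exact ⟨hxb, by simp⟩
    rw [Bundle.Trivialization.continuousLinearMapAt_apply, Bundle.Trivialization.linearMapAt_apply,
      if_pos hb, hom_trivializationAt_apply]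
    simp only [ContinuousLinearMap.inCoordinates, ContinuousLinearMap.comp_apply]
    simp
  rw [hL, inn_apply, ← hDx, ← hDx]
  rfl

lemma isVonNBounded_inn
    (g : sphere (0 : E₁) 1 × sphere (0 : E₂) 1 → (E₁ × E₂) →L[ℝ] (E₁ × E₂) →L[ℝ] ℝ)
    (h3 : ∀ (p : sphere (0 : E₁) 1 × sphere (0 : E₂) 1) (u : E₁ × E₂), ⟪(p.1 : E₁), u.1⟫ = 0 →
      ⟪(p.2 : E₂), u.2⟫ = 0 → u ≠ 0 → 0 < g p u u)
    (p : sphere (0 : E₁) 1 × sphere (0 : E₂) 1) :
    Bornology.IsVonNBounded ℝ {v : TangentSpace ((𝓡 k).prod (𝓡 l)) p | inn g p v v < 1} := by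
  let B : (EuclideanSpace ℝ (Fin k) × EuclideanSpace ℝ (Fin l)) →L[ℝ]
      (EuclideanSpace ℝ (Fin k) × EuclideanSpace ℝ (Fin l)) →L[ℝ] ℝ := inn (k := k) (l := l) g p
  have hpos : ∀ v : EuclideanSpace ℝ (Fin k) × EuclideanSpace ℝ (Fin l), v ≠ 0 → 0 < B v v := by
    intro v hv
    have hd := dinc_prop (k := k) (l := l) p
    have h0 : dinc (k := k) (l := l) p v ≠ 0 := by
      intro h
      apply hv
      apply hd.1
      rw [h]
      exact (map_zero (dinc (k := k) (l := l) p)).symm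
    exact h3 p _ (hd.2 v).1 (hd.2 v).2 h0
  obtain ⟨c, hc, hlow⟩ := exists_lower
    (F := EuclideanSpace ℝ (Fin k) × EuclideanSpace ℝ (Fin l)) B hpos
  have hb : Bornology.IsVonNBounded ℝ
      (closedBall (0 : EuclideanSpace ℝ (Fin k) × EuclideanSpace ℝ (Fin l)) (1 / c + 1)) :=
    NormedSpace.isVonNBounded_closedBall _ _ _
  have hsub : {v : EuclideanSpace ℝ (Fin k) × EuclideanSpace ℝ (Fin l) | B v v < 1}
      ⊆ closedBall (0 : EuclideanSpace ℝ (Fin k) × EuclideanSpace ℝ (Fin l)) (1 / c + 1) := by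
    intro v hv
    have h1 := hlow v
    have h2 : B v v < 1 := hv
    rw [mem_closedBall_zero_iff]
    by_contra hcon
    push Not at hcon
    have h4 : 0 < 1 / c := by positivity
    have h5 : 1 ≤ ‖v‖ := by linarith
    have h6 : ‖v‖ ≤ ‖v‖ ^ 2 := by nlinarith only [hcon, h4]
    have h7 : 1 / c < ‖v‖ := by linarith only [hcon]
    have h8 : 1 < c * ‖v‖ := by
      rw [div_lt_iff₀ hc] at h7
      linarith only [h7]
    have h9 : c * ‖v‖ ≤ c * ‖v‖ ^ 2 := mul_le_mul_of_nonneg_left h6 hc.le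
    linarith only [h1, h2, h8, h9]
  exact hb.subset hsub

end BR

/-- BR1 : the Riemannian metric induced by a field of bilinear forms of the ambient space -/
theorem exists_metric
    (g : sphere (0 : E₁) 1 × sphere (0 : E₂) 1 → (E₁ × E₂) →L[ℝ] (E₁ × E₂) →L[ℝ] ℝ)
    (h1 : ContMDiff ((𝓡 k).prod (𝓡 l)) 𝓘(ℝ, (E₁ × E₂) →L[ℝ] (E₁ × E₂) →L[ℝ] ℝ) ∞ g)
    (h2 : ∀ p u v, g p u v = g p v u)
    (h3 : ∀ (p : sphere (0 : E₁) 1 × sphere (0 : E₂) 1) (u : E₁ × E₂), ⟪(p.1 : E₁), u.1⟫ = 0 →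
      ⟪(p.2 : E₂), u.2⟫ = 0 → u ≠ 0 → 0 < g p u u) :
    ∃ g' : Bundle.ContMDiffRiemannianMetric ((𝓡 k).prod (𝓡 l)) ∞
        (EuclideanSpace ℝ (Fin k) × EuclideanSpace ℝ (Fin l))
        (fun x : sphere (0 : E₁) 1 × sphere (0 : E₂) 1 => TangentSpace ((𝓡 k).prod (𝓡 l)) x),
      ∀ p u v, g'.inner p u v = g p (dinc p u) (dinc p v) := by
  refine ⟨{ inner := fun p => inn g p, symm := fun p v w => ?_, pos := fun p v hv => ?_,
            isVonNBounded := fun p => isVonNBounded_inn g h3 p,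
            contMDiff := contMDiff_inn g h1 }, fun p u v => rfl⟩
  · rw [inn_apply, inn_apply, h2]
  · rw [inn_apply]
    have hd := dinc_prop (k := k) (l := l) p
    refine h3 p _ (hd.2 v).1 (hd.2 v).2 fun h => hv ?_
    apply hd.1
    rw [h]
    exact (map_zero (dinc (k := k) (l := l) p)).symm

end

end Pool.Agent.Helper28.HP
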