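import Pool.Agent.Helper20.HP.Data2
import Pool.Agent.Helper20.PC.Graph

/-!
# HOPF project, piece Q3: the covariant derivative of the curvature of the connection
-/

set_option autoImplicit false

open Filter Metric Module Set
open scoped Topology ContDiff RealInnerProductSpace Manifold Quaternion

namespace Pool.Agent.Helper28.HP
open Pool.Agent.Helper20.PC Pool.Agent.Helper20.HP

namespace Q3

lemma inner3 (a b : E3) : ⟪a, b⟫ = a 0 * b 0 + a 1 * b 1 + a 2 * b 2 := by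
  simp [PiLp.inner_apply, Fin.sum_univ_three]
  ring

lemma sum_sq {x : E3} (hx : ‖x‖ = 1) : x 0 ^ 2 + x 1 ^ 2 + x 2 ^ 2 = 1 := by
  have h := real_inner_self_eq_norm_sq x
  rw [inner3, hx] at h
  nlinarith [h]

lemma sum_mul {x X : E3} (h : ⟪x, X⟫ = 0) : x 0 * X 0 + x 1 * X 1 + x 2 * X 2 = 0 := by
  rwa [inner3] at h

lemma inner_Hv (x y : E3) : ⟪y, Hv x⟫ = Hb x y := by
  rw [inner3]
  simp [Hv, Hb, HbG]
  ring

lemma sg_pos {κ : ℝ} (hκ : |κ| ≤ 1 / 10) {x : E3} (hx : ‖x‖ = 1) : 0 < sg κ x := by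
  have h := sum_sq hx
  have h1 : |Hb x x| ≤ 2 := by
    rw [abs_le]
    constructor
    · simp only [Hb, HbG]
      nlinarith [sq_nonneg (x 0 + x 1), sq_nonneg (x 0 + x 2), sq_nonneg (x 1 - x 2),
        sq_nonneg (x 0), sq_nonneg (x 1), sq_nonneg (x 2)]
    · simp only [Hb, HbG]
      nlinarith [sq_nonneg (x 0 - x 1), sq_nonneg (x 0 - x 2), sq_nonneg (x 1 - x 2),
        sq_nonneg (x 0), sq_nonneg (x 1), sq_nonneg (x 2)]
  have h2 : |κ * Hb x x| ≤ 1 / 10 * 2 := by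
    rw [abs_mul]
    exact mul_le_mul hκ h1 (abs_nonneg _) (by norm_num)
  have h3 := (abs_le.mp h2).2
  unfold sg
  linarith

/-- coordinates are differentiable -/
lemma diff_coord (i : Fin 3) : Differentiable ℝ (fun x : E3 => x i) :=
  (EuclideanSpace.proj (𝕜 := ℝ) i).differentiable

lemma fderiv_coord (i : Fin 3) (x u : E3) : fderiv ℝ (fun x : E3 => x i) x u = u i := by
  have : HasFDerivAt (fun x : E3 => x i) (EuclideanSpace.proj (𝕜 := ℝ) i : E3 →L[ℝ] ℝ) x :=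
    (EuclideanSpace.proj (𝕜 := ℝ) i : E3 →L[ℝ] ℝ).hasFDerivAt
  rw [this.fderiv]
  rfl

lemma diff_Hb : Differentiable ℝ (fun x : E3 => Hb x x) := by
  have h0 := diff_coord 0
  have h1 := diff_coord 1
  have h2 := diff_coord 2
  have : (fun x : E3 => Hb x x) = fun x : E3 => x 0 * (x 1 + x 2) + (x 1 + x 2) * x 0 := by
    funext x
    rfl
  rw [this]
  exact (h0.mul (h1.add h2)).add ((h1.add h2).mul h0)

lemma diff_sg (κ : ℝ) : Differentiable ℝ (sg κ) := by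
  have : sg κ = fun x : E3 => 1 - κ * Hb x x := rfl
  rw [this]
  exact (diff_Hb.const_mul κ).const_sub 1

lemma hasFDerivAt_Hb (x : E3) : HasFDerivAt (fun x : E3 => Hb x x)
    ((2 : ℝ) • innerSL ℝ (Hv x)) x := by
  have h0 : HasFDerivAt (fun x : E3 => x 0) (EuclideanSpace.proj (𝕜 := ℝ) 0 : E3 →L[ℝ] ℝ) x :=
    (EuclideanSpace.proj (𝕜 := ℝ) (0 : Fin 3) : E3 →L[ℝ] ℝ).hasFDerivAt
  have h1 : HasFDerivAt (fun x : E3 => x 1) (EuclideanSpace.proj (𝕜 := ℝ) 1 : E3 →L[ℝ] ℝ) x :=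
    (EuclideanSpace.proj (𝕜 := ℝ) (1 : Fin 3) : E3 →L[ℝ] ℝ).hasFDerivAt
  have h2 : HasFDerivAt (fun x : E3 => x 2) (EuclideanSpace.proj (𝕜 := ℝ) 2 : E3 →L[ℝ] ℝ) x :=
    (EuclideanSpace.proj (𝕜 := ℝ) (2 : Fin 3) : E3 →L[ℝ] ℝ).hasFDerivAt
  have h3 := (h0.mul (h1.add h2)).add ((h1.add h2).mul h0)
  refine HasFDerivAt.congr_fderiv (f' := _) h3 ?_
  ext u
  simp only [_root_.add_apply, _root_.smul_apply, smul_eq_mul, innerSL_apply_apply,
    PiLp.proj_apply, Pi.add_apply]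
  rw [real_inner_comm, inner_Hv]
  simp only [Hb, HbG]
  ring

lemma hasFDerivAt_sg (κ : ℝ) (x : E3) : HasFDerivAt (sg κ)
    ((-(2 * κ)) • innerSL ℝ (Hv x)) x := by
  have h := ((hasFDerivAt_Hb x).const_mul κ).const_sub 1
  refine HasFDerivAt.congr_fderiv (f' := _) h ?_
  ext u
  simp only [_root_.neg_apply, _root_.smul_apply, smul_eq_mul]
  ring

lemma diff_om (κ ε : ℝ) : Differentiable ℝ (om κ ε) := by
  have h0 := diff_coord 0
  have h1 := diff_coord 1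
  have h2 := diff_coord 2
  have hs := diff_sg κ
  have hb := diff_Hb
  have hn : Differentiable ℝ (fun x : E3 => ‖Hv x‖ ^ 2) := by
    have : (fun x : E3 => ‖Hv x‖ ^ 2)
        = fun x : E3 => (x 1 + x 2) * (x 1 + x 2) + (x 0 * x 0 + x 0 * x 0) := by
      funext x
      rw [← real_inner_self_eq_norm_sq, inner3]
      simp [Hv]
      ring
    rw [this]
    exact ((h1.add h2).mul (h1.add h2)).add ((h0.mul h0).add (h0.mul h0))
  have hK : Differentiable ℝ (Kc κ) := by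
    have : Kc κ = fun x : E3 => sg κ x ^ 2 + 6 * κ * sg κ x * Hb x x
        - 4 * κ ^ 2 * (‖Hv x‖ ^ 2 - Hb x x ^ 2) := rfl
    rw [this]
    exact ((hs.pow 2).add ((hs.const_mul (6 * κ)).mul hb)).sub
      ((hn.sub (hb.pow 2)).const_mul (4 * κ ^ 2))
  have hr : Differentiable ℝ (rr ε) := by
    have : rr ε = fun x : E3 => 1 / 2 + ε * x 2 := rfl
    rw [this]
    exact (h2.const_mul ε).const_add (1 / 2)
  have : om κ ε = fun x : E3 => - ((Kc κ x - rr ε x ^ 2) • x + (ε * sg κ x) • (e3 - x 2 • x)) := rfl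
  rw [this]
  exact (((hK.sub (hr.pow 2)).smul differentiable_id).add
    ((hs.const_mul ε).smul ((h2.smul differentiable_id).const_sub e3))).neg

lemma cr_cr (a b c : E3) : cr a (cr b c) = ⟪a, c⟫ • b - ⟪a, b⟫ • c := by
  rw [inner3, inner3]
  ext i
  fin_cases i <;> simp [cr] <;> ring

lemma cr_anti (a b : E3) : cr a b = - cr b a := by
  ext i
  fin_cases i <;> simp [cr] <;> ring

lemma triple (a b c : E3) : ⟪a, cr b c⟫ = ⟪cr c a, b⟫ := by
  rw [inner3, inner3]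
  simp [cr]
  ring

lemma triple' (a b c : E3) : ⟪a, cr b c⟫ = ⟪cr a b, c⟫ := by
  rw [inner3, inner3]
  simp [cr]
  ring

lemma cr_smul_left (r : ℝ) (a b : E3) : cr (r • a) b = r • cr a b := by
  ext i
  fin_cases i <;> simp [cr] <;> ring

lemma cr_smul_right (r : ℝ) (a b : E3) : cr a (r • b) = r • cr a b := by
  ext i
  fin_cases i <;> simp [cr] <;> ring

lemma br_qim (a b : E3) : br ((1/2 : ℝ) • qimL a) ((1/2 : ℝ) • qimL b)
    = (1/2 : ℝ) • qimL (cr a b) := by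
  simp only [br, qimL_apply]
  ext <;> simp [cr] <;> ring

lemma AE_jx1 {κ ε : ℝ} (hκ : |κ| ≤ 1/10) {x X : E3} (hx : ‖x‖ = 1) (hxX : ⟪x, X⟫ = 0) :
    AE κ ε x (jx1 κ x X) = (1/2 : ℝ) • qimL (jw0 κ ε x X) := by
  have hs : sg κ x ≠ 0 := (sg_pos hκ hx).ne'
  have hn : nn x = x := by simp [nn, hx]
  have ht : ⟪x, jx1 κ x X⟫ = 0 := by rw [jx1, inner_smul_right, hxX, mul_zero]
  have hd : dn x (jx1 κ x X) = jx1 κ x X := dn_tangent hx ht
  have h1 : AE κ ε x (jx1 κ x X) = (1/2 : ℝ) • qimL (AvL κ ε x (jx1 κ x X)) := by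
    simp only [AE, _root_.smul_apply, ContinuousLinearMap.comp_apply, hn, hd]
  rw [h1, AvL_apply]
  congr 2
  unfold Av jx1 jw0 sgn
  rw [cr_smul_right, inner_smul_right, smul_smul]
  have h2 : ⟪cr x (Hv x), X⟫ = - Hb x (cr x X) := by
    rw [inner3]
    simp [cr, Hv, Hb, HbG]
    ring
  rw [h2]
  congr 1
  · congr 1
    field_simp
  · congr 1
    field_simp

end Q3

open Q3

/-- Q3: the covariant derivative of the curvature of the connection, given the Christoffel symbols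
of the base metric (Q1b) and the curvature of the connection (Q2b). -/
theorem DOm_AE_of
    (gam_hE : ∀ {κ : ℝ}, |κ| ≤ 1/10 → ∀ {x u v : E3}, ‖x‖ = 1 → ⟪x, u⟫ = 0 → ⟪x, v⟫ = 0 →
      Gam (hE κ) x u v = (2 * κ / sg κ x) • (Hb x u • v + Hb x v • u)
        - (2 * κ / sg κ x * ⟪u, v⟫) • (Hv x - Hb x x • x) + (⟪u, v⟫ : ℝ) • x)
    (Om_AE : ∀ {κ ε : ℝ}, |κ| ≤ 1/10 → ∀ {x : E3}, x ≠ 0 → ∀ (u v : E3),
      Om (AE κ ε) x u v = (1/2 * (sg κ (nn x) ^ 2)⁻¹ * ‖x‖⁻¹ ^ 3 * ⟪x, cr u v⟫)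
        • qimL (om κ ε (nn x)))
    {κ ε : ℝ} (hκ : |κ| ≤ 1/10) {x X : E3} (hx : ‖x‖ = 1) (hX : ‖X‖ = 1) (hxX : ⟪x, X⟫ = 0) :
    DOm (hE κ) (AE κ ε) x (jx1 κ x X) (jx1 κ x X) (sg κ x • cr x X)
      = (1/2 : ℝ) • qimL (dom κ ε x X) := by
  have hs : sg κ x ≠ 0 := (sg_pos hκ hx).ne'
  have hn : nn x = x := by simp [nn, hx]
  have hx0 : x ≠ 0 := by
    intro h
    rw [h, norm_zero] at hx
    norm_num at hx
  set s := sg κ x with hsdef
  set n := cr x X with hndef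
  set ξ := jx1 κ x X with hξdef
  have hξ : ξ = s • X := rfl
  have hxx : ⟪x, x⟫ = 1 := by rw [real_inner_self_eq_norm_sq, hx]; norm_num
  have hXX : ⟪X, X⟫ = 1 := by rw [real_inner_self_eq_norm_sq, hX]; norm_num
  have hXx : ⟪X, x⟫ = 0 := by rw [real_inner_comm]; exact hxX
  have hXn : cr X n = x := by
    rw [hndef, cr_cr, hXX, hXx, one_smul, zero_smul, sub_zero]
  have hnx : cr n x = X := by
    rw [cr_anti, hndef, cr_cr, hxX, hxx]
    simp
  have hxn : ⟪x, n⟫ = 0 := by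
    rw [hndef, triple]
    rw [inner3]
    simp [cr]
    ring
  have ht : ⟪x, ξ⟫ = 0 := by rw [hξ, inner_smul_right, hxX, mul_zero]
  have ht' : ⟪x, s • n⟫ = 0 := by rw [inner_smul_right, hxn, mul_zero]
  -- the vector `w`
  have hw : cr ξ (s • n) = (s ^ 2) • x := by
    rw [hξ, cr_smul_left, cr_smul_right, hXn, smul_smul, sq]
  -- derivatives
  have hnn : HasFDerivAt nn (dn x) x := hasFDerivAt_normalize hx0
  have dnξ : dn x ξ = ξ := dn_tangent hx ht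
  have hsnn : HasFDerivAt (fun x' : E3 => sg κ (nn x'))
      (((-(2 * κ)) • innerSL ℝ (Hv x)) ∘L dn x) x := by
    have h1 := hasFDerivAt_sg κ (nn x)
    rw [hn] at h1
    have h2 : HasFDerivAt (sg κ) ((-(2 * κ)) • innerSL ℝ (Hv x)) (nn x) := by rw [hn]; exact h1
    exact h2.comp x hnn
  have hA : HasFDerivAt (fun x' : E3 => (sg κ (nn x') ^ 2)⁻¹)
      ((-(2 * s) / (s ^ 2) ^ 2) • (((-(2 * κ)) • innerSL ℝ (Hv x)) ∘L dn x)) x := by
    have h1 : HasDerivAt (fun r : ℝ => (r ^ 2)⁻¹) (-(2 * s) / (s ^ 2) ^ 2) (sg κ (nn x)) := by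
      rw [hn, ← hsdef]
      have h2 := (hasDerivAt_pow 2 s).fun_inv (pow_ne_zero 2 hs)
      refine h2.congr_deriv ?_
      norm_num
    exact HasDerivAt.comp_hasFDerivAt (h₂ := fun r : ℝ => (r ^ 2)⁻¹) x h1 hsnn
  have hB : ∃ B' : E3 →L[ℝ] ℝ, HasFDerivAt (fun x' : E3 => ‖x'‖⁻¹ ^ 3) B' x ∧ B' ξ = 0 := by
    have h1 : HasFDerivAt (fun x' : E3 => ‖x'‖ ^ 2) (2 • innerSL ℝ x) x :=
      (hasStrictFDerivAt_norm_sq x).hasFDerivAt
    have h2 : DifferentiableAt ℝ (fun r : ℝ => (√r)⁻¹ ^ 3) (‖x‖ ^ 2) := by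
      have h3 : (‖x‖ ^ 2) ≠ 0 := by rw [hx]; norm_num
      have h4 : DifferentiableAt ℝ (fun r : ℝ => √r) (‖x‖ ^ 2) :=
        (hasDerivAt_id _).differentiableAt.sqrt h3
      have h5 : √(‖x‖ ^ 2) ≠ 0 := by rw [hx]; norm_num
      exact (h4.inv h5).pow 3
    have h6 := h2.hasDerivAt.comp_hasFDerivAt x h1
    refine ⟨_, h6.congr_of_eventuallyEq ?_, ?_⟩
    · refine Eventually.of_forall fun x' => ?_
      simp only [Function.comp_apply]
      rw [Real.sqrt_sq (norm_nonneg _)]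
    · simp [ht]
  obtain ⟨B', hB, hB0⟩ := hB
  have hC : HasFDerivAt (fun x' : E3 => ⟪x', cr ξ (s • n)⟫) (innerSL ℝ (cr ξ (s • n))) x := by
    have h1 : HasFDerivAt (fun x' : E3 => innerSL ℝ (cr ξ (s • n)) x')
        (innerSL ℝ (cr ξ (s • n))) x := (innerSL ℝ (cr ξ (s • n))).hasFDerivAt
    refine h1.congr_of_eventuallyEq (Eventually.of_forall fun x' => ?_)
    simp only [innerSL_apply_apply]
    exact real_inner_comm _ _
  have hC0 : innerSL ℝ (cr ξ (s • n)) ξ = 0 := by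
    rw [innerSL_apply_apply, hw, inner_smul_left, ht]
    simp
  have hD : HasFDerivAt (fun x' : E3 => qimL (om κ ε (nn x')))
      (qimL ∘L (fderiv ℝ (om κ ε) x ∘L dn x)) x := by
    have h1 : HasFDerivAt (om κ ε) (fderiv ℝ (om κ ε) x) (nn x) := by
      rw [hn]; exact (diff_om κ ε x).hasFDerivAt
    exact qimL.hasFDerivAt.comp x (h1.comp x hnn)
  have hG := ((hA.const_mul (1/2 : ℝ)).mul hB).mul hC
  have hF := hG.smul hD
  have hOm : (fun x' => Om (AE κ ε) x' ξ (s • n)) =ᶠ[𝓝 x]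
      fun x' => (1/2 * (sg κ (nn x') ^ 2)⁻¹ * ‖x'‖⁻¹ ^ 3 * ⟪x', cr ξ (s • n)⟫)
        • qimL (om κ ε (nn x')) := by
    filter_upwards [isOpen_ne.mem_nhds hx0] with x' hx'
    exact Om_AE hκ hx' _ _
  have hF' : HasFDerivAt (fun x' => (1/2 * (sg κ (nn x') ^ 2)⁻¹ * ‖x'‖⁻¹ ^ 3
      * ⟪x', cr ξ (s • n)⟫) • qimL (om κ ε (nn x'))) _ x := hF
  have hfd : fderiv ℝ (fun x' => Om (AE κ ε) x' ξ (s • n)) x ξ
      = (1/2 : ℝ) • qimL (fderiv ℝ (om κ ε) x ξ) + (2 * κ * Hb x X) • qimL (om κ ε x) := by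
    rw [hOm.fderiv_eq, hF'.fderiv]
    simp only [_root_.add_apply, _root_.smul_apply, ContinuousLinearMap.smulRight_apply,
      ContinuousLinearMap.comp_apply, smul_eq_mul, Pi.mul_apply, dnξ, hB0, hC0, hn,
      innerSL_apply_apply]
    have e1 : ⟪x, cr ξ (s • n)⟫ = s ^ 2 := by rw [hw, inner_smul_right, hxx, mul_one]
    have e2 : ⟪Hv x, ξ⟫ = s * Hb x X := by
      rw [hξ, inner_smul_right, real_inner_comm, inner_Hv]
    rw [e1, e2, hx, ← hsdef]
    congr 1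
    · congr 1
      field_simp
    · congr 1
      field_simp
      ring
  have hx0' : Om (AE κ ε) x ξ (s • n) = (1/2 : ℝ) • qimL (om κ ε x) := by
    rw [Om_AE hκ hx0, hw, inner_smul_right, hxx, hn, hx, ← hsdef]
    congr 1
    field_simp
  have hbr : br (AE κ ε x ξ) (Om (AE κ ε) x ξ (s • n))
      = (1/2 : ℝ) • qimL (cr (jw0 κ ε x X) (om κ ε x)) := by
    rw [hx0', hξdef, AE_jx1 hκ hx hxX, br_qim]
  have hg1 : Om (AE κ ε) x (Gam (hE κ) x ξ ξ) (s • n) = (κ * Hb x X) • qimL (om κ ε x) := by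
    have e1 : ⟪x, cr (Gam (hE κ) x ξ ξ) (s • n)⟫ = 2 * κ * s ^ 2 * Hb x X := by
      rw [triple, cr_smul_left, hnx, gam_hE hκ hx ht ht, ← hsdef, hξ]
      have e2 : Hb x (s • X) = s * Hb x X := by
        rw [← inner_Hv, ← inner_Hv, inner_smul_left]; simp
      have e3 : ⟪X, Hv x⟫ = Hb x X := inner_Hv x X
      rw [e2]
      simp only [inner_smul_left, inner_smul_right, inner_add_right, inner_sub_right, hXX, hXx, e3,
        RCLike.conj_to_real]
      field_simp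
      ring
    rw [Om_AE hκ hx0, e1, hn, hx, ← hsdef]
    congr 1
    field_simp
  have hg2 : Om (AE κ ε) x ξ (Gam (hE κ) x ξ (s • n)) = (κ * Hb x X) • qimL (om κ ε x) := by
    have e1 : ⟪x, cr ξ (Gam (hE κ) x ξ (s • n))⟫ = 2 * κ * s ^ 2 * Hb x X := by
      have hnn1 : ⟪n, n⟫ = 1 := by
        have h := triple' n x X
        rw [hnx, hXX] at h
        exact h
      have hnX : ⟪n, X⟫ = 0 := by
        rw [hndef, inner3]
        simp [cr]
        ring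
      rw [triple', hξ, cr_smul_right, ← hndef]
      have ht2 : ⟪x, s • X⟫ = 0 := ht
      rw [gam_hE hκ hx ht2 ht', ← hsdef]
      have e2 : Hb x (s • X) = s * Hb x X := by
        rw [← inner_Hv, ← inner_Hv, inner_smul_left]; simp
      have e3 : ⟪X, Hv x⟫ = Hb x X := inner_Hv x X
      have hnx' : ⟪n, x⟫ = 0 := by rw [real_inner_comm]; exact hxn
      have hXn' : ⟪X, n⟫ = 0 := by rw [real_inner_comm]; exact hnX
      rw [e2]
      simp only [inner_smul_left, inner_smul_right, inner_add_right, inner_sub_right, hnn1, hnX,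
        hXn', hnx', RCLike.conj_to_real]
      field_simp
      ring
    rw [Om_AE hκ hx0, e1, hn, hx, ← hsdef]
    congr 1
    field_simp
  unfold DOm
  rw [hfd, hbr, hg1, hg2]
  have hdom : dom κ ε x X = fderiv ℝ (om κ ε) x ξ + cr (jw0 κ ε x X) (om κ ε x) := rfl
  rw [hdom, map_add, smul_add]
  module

end Pool.Agent.Helper28.HP
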